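import Pool.Agent.Q62.RN.All

/-!
# Reinforcing networks: the relaxed problem is not the relaxation of the network problem

The plane is `ℂ` with its Euclidean norm and Lebesgue measure. The load `f` constructed in the proof is
`∑ 2^(-j-1) δ_{x_j} - δ_0` with a dense sequence of points `x_j` of an open segment `(0, l)`. It has
finite energy for a network `S` only if `S` contains all the `x_j`, so the whole segment. For the
measure `μ = (3/2) ℋ¹ ⌞ [0, l]` (an element of `M_L`, `L = 3 l / 2`) the energy is that of a string with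
stiffness `3 m / 2`, while the part of a network outside the segment, of length at most `l / 2`, has a
shadow of density at most `1/2` on the segment, so that it can only produce an effective stiffness
strictly below `3 m / 2`.
-/

set_option autoImplicit false

open MeasureTheory Filter Topology Set
open scoped ContDiff ENNReal

namespace Pool.Agent.Results.MP_3f57e5_an.NoRelaxation

/-- `|∇u|²` -/
noncomputable def gradSq (u : ℂ → ℝ) (p : ℂ) : ℝ :=
  fderiv ℝ u p 1 ^ 2 + fderiv ℝ u p Complex.I ^ 2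

/-- `u ∈ C_c^∞(Ω)` -/
def TestFunction (Ω : Set ℂ) (u : ℂ → ℝ) : Prop :=
  ContDiff ℝ ∞ u ∧ HasCompactSupport u ∧ tsupport u ⊆ Ω

/-- `∫ u df` for a signed measure `f` -/
noncomputable def loadIntegral (f : SignedMeasure ℂ) (u : ℂ → ℝ) : ℝ :=
  (∫ p, u p ∂f.toJordanDecomposition.posPart) - ∫ p, u p ∂f.toJordanDecomposition.negPart

/-- `E_f(μ) = inf {1/2 ∫ |∇u|² dx + m/2 ∫ |∇u|² dμ - ∫ u df : u ∈ C_c^∞(Ω)}`, possibly `-∞` -/
noncomputable def energy (Ω : Set ℂ) (f : SignedMeasure ℂ) (m : ℝ) (μ : Measure ℂ) : EReal :=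
  ⨅ u : {u : ℂ → ℝ // TestFunction Ω u},
    ((1 / 2 * (∫ p, gradSq u.1 p) + m / 2 * (∫ p, gradSq u.1 p ∂μ) - loadIntegral f u.1 : ℝ) : EReal)

/-- `ℋ¹ ⌞ S` -/
noncomputable def line (S : Set ℂ) : Measure ℂ := (Measure.hausdorffMeasure 1 : Measure ℂ).restrict S

/-- `S ∈ A_L`: `S ⊆ Ω` is connected, relatively closed in `Ω` and of length at most `L` -/
structure Network (Ω : Set ℂ) (L : ℝ) (S : Set ℂ) : Prop where
  subset : S ⊆ Ω
  closed : ∀ p ∈ Ω, p ∈ closure S → p ∈ S
  connected : IsConnected S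
  length : (Measure.hausdorffMeasure 1 : Measure ℂ) S ≤ ENNReal.ofReal L

/-- weak* convergence -/
def WeakStar (ν : ℕ → Measure ℂ) (μ : Measure ℂ) : Prop :=
  ∀ φ : ℂ → ℝ, Continuous φ → Tendsto (fun n => ∫ p, φ p ∂ν n) atTop (𝓝 (∫ p, φ p ∂μ))

/-- the segment `[0, l]` of the real axis -/
def segment (l : ℝ) : Set ℂ := Complex.ofReal '' Icc 0 l

/-- **The approximation property fails**, for every stiffness `m > 0` and every open set `Ω` containing
a segment `[0, l]`, with `L = 3 l / 2` and `μ = (3/2) ℋ¹ ⌞ [0, l]`. There is a signed measure `f`,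
carried by the segment, such that: the segment is a network of finite energy; `μ` is the weak* limit of
`ℋ¹ ⌞ T n` for compact networks `T n`; the energy of `μ` is a real number `A`, and there is `c > 0` such
that `E_f(S n) ≤ A - c` for all large `n`, for every sequence of networks `S n` with
`ℋ¹ ⌞ S n → μ` weakly*. -/
theorem result (m l : ℝ) (hm : 0 < m) (hl : 0 < l) (Ω : Set ℂ) (hΩ : IsOpen Ω)
    (hseg : segment l ⊆ Ω) :
    ∃ f : SignedMeasure ℂ, f.totalVariation (segment l)ᶜ = 0 ∧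
      Network Ω (3 / 2 * l) (segment l) ∧ energy Ω f m (line (segment l)) ≠ ⊥ ∧
      (∃ T : ℕ → Set ℂ, (∀ n, IsCompact (T n) ∧ Network Ω (3 / 2 * l) (T n)) ∧
        WeakStar (fun n => line (T n)) ((3 / 2 : ℝ≥0∞) • line (segment l))) ∧
      ∃ A c : ℝ, 0 < c ∧ energy Ω f m ((3 / 2 : ℝ≥0∞) • line (segment l)) = (A : EReal) ∧
        ∀ S : ℕ → Set ℂ, (∀ n, Network Ω (3 / 2 * l) (S n)) →
          WeakStar (fun n => line (S n)) ((3 / 2 : ℝ≥0∞) • line (segment l)) →
          ∀ᶠ n in atTop, energy Ω f m (line (S n)) ≤ ((A - c : ℝ) : EReal) := by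
  obtain ⟨f, h1, h2, ⟨T, hT, hTlim⟩, A, c, hc, hA, hall⟩ :=
    Pool.Agent.Q62.RN.all l m Ω hl hm hΩ hseg
  have hcpt : IsCompact (segment l) := isCompact_Icc.image Complex.continuous_ofReal
  refine ⟨f, h1, ⟨hseg, fun p _ hp => ?_, ?_, ?_⟩, h2, ⟨T, fun n => ⟨(hT n).1, ?_⟩, hTlim⟩, A, c, hc,
    hA, fun S hS hlim => hall S (fun n => ⟨(hS n).subset, (hS n).closed⟩)
      (fun n => (hS n).length) hlim⟩
  · rwa [hcpt.isClosed.closure_eq] at hp
  · exact (isConnected_Icc hl.le).image _ Complex.continuous_ofReal.continuousOn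
  · have h3 := (Pool.Agent.Q203.RN.t_A1 l hl).2.1
    exact le_of_eq_of_le h3 (ENNReal.ofReal_le_ofReal (by linarith))
  · obtain ⟨a1, a2, a3, a4⟩ := hT n
    exact ⟨a3, fun p _ hp => by rwa [a1.isClosed.closure_eq] at hp, a2, a4⟩

end Pool.Agent.Results.MP_3f57e5_an.NoRelaxation
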